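import Mathlib

/-!
# The Cantor dust is c-removable

Every closed Lebesgue-null set in the plane which is intervally thin in two linearly independent
directions is c-removable. In particular the Cantor dust is c-removable.
-/

namespace Pool.Agent.Results.MP_95ad2c_an.CantorDust

open Set MeasureTheory Metric

/-- The Euclidean plane. -/
abbrev Plane := EuclideanSpace ℝ (Fin 2)

/-- `f` is locally convex on the set `U`: every point of `U` has an open convex neighbourhood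
contained in `U` on which `f` is convex. -/
def LocallyConvexOn (f : Plane → ℝ) (U : Set Plane) : Prop :=
  ∀ x ∈ U, ∃ V : Set Plane, IsOpen V ∧ Convex ℝ V ∧ x ∈ V ∧ V ⊆ U ∧ ConvexOn ℝ V f

/-- A set `A` is c-removable if every continuous real function on the plane which is locally convex
on the complement of `A` is convex. -/
def CRemovable (A : Set Plane) : Prop :=
  ∀ f : Plane → ℝ, Continuous f → LocallyConvexOn f Aᶜ → ConvexOn ℝ univ f

/-- `A` is intervally thin in the direction of `v`. -/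
def IntervallyThin (A : Set Plane) (v : Plane) : Prop :=
  ∀ x y : Plane, (∃ t : ℝ, x - y = t • v) → ∀ ε > 0,
    ∃ x' ∈ ball x ε, ∃ y' ∈ ball y ε, segment ℝ x' y' ∩ A = ∅

/-- The Cantor dust `C × C`. -/
def cantorDust : Set Plane := {x | x 0 ∈ cantorSet ∧ x 1 ∈ cantorSet}

/-! ### Two-sided estimates at contact points -/

lemma two_sided (F : ℝ × ℝ → ℝ)
    (hH : ∀ z : ℝ × ℝ, ∀ τ : ℝ, 2 * F z ≤ F (z.1 - τ, z.2) + F (z.1 + τ, z.2))
    (hV : ∀ z : ℝ × ℝ, ∀ τ : ℝ, 2 * F z ≤ F (z.1, z.2 - τ) + F (z.1, z.2 + τ))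
    (z : ℝ × ℝ) (q₁ q₂ M r : ℝ)
    (hup : ∀ h₁ h₂ l : ℝ, |h₁| ≤ l → |h₂| ≤ l → l ≤ r →
      F (z.1 + h₁, z.2 + h₂) ≤ F z + (q₁ * h₁ + q₂ * h₂) + M * l ^ 2) :
    ∀ h₁ h₂ l : ℝ, |h₁| ≤ l → |h₂| ≤ l → l ≤ r →
      F z + (q₁ * h₁ + q₂ * h₂) - 3 * M * l ^ 2 ≤ F (z.1 + h₁, z.2 + h₂) := by
  intro h₁ h₂ l hl1 hl2 hlr
  have hl0 : 0 ≤ l := (abs_nonneg _).trans hl1
  have e1 := hup (-h₁) 0 l (by rwa [abs_neg]) (by simpa using hl0) hlr
  have e2 := hup h₁ (-h₂) l hl1 (by rwa [abs_neg]) hlr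
  have e3 := hH z h₁
  have e4 := hV (z.1 + h₁, z.2) h₂
  simp only [add_zero, ← sub_eq_add_neg] at e1 e2 e4
  nlinarith

lemma slope_diff (F : ℝ × ℝ → ℝ) (z z' : ℝ × ℝ) (q₁ q₂ q₁' q₂' M r : ℝ)
    (hup : ∀ h₁ h₂ l : ℝ, |h₁| ≤ l → |h₂| ≤ l → l ≤ r →
      F (z.1 + h₁, z.2 + h₂) ≤ F z + (q₁ * h₁ + q₂ * h₂) + M * l ^ 2)
    (hlo : ∀ h₁ h₂ l : ℝ, |h₁| ≤ l → |h₂| ≤ l → l ≤ r →
      F z + (q₁ * h₁ + q₂ * h₂) - 3 * M * l ^ 2 ≤ F (z.1 + h₁, z.2 + h₂))
    (hlo' : ∀ h₁ h₂ l : ℝ, |h₁| ≤ l → |h₂| ≤ l → l ≤ r →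
      F z' + (q₁' * h₁ + q₂' * h₂) - 3 * M * l ^ 2 ≤ F (z'.1 + h₁, z'.2 + h₂))
    (l : ℝ) (hl : 0 < l) (hlr : 2 * l ≤ r) (h1 : |z'.1 - z.1| ≤ l) (h2 : |z'.2 - z.2| ≤ l) :
    ∀ k₁ k₂ : ℝ, |k₁| ≤ l → |k₂| ≤ l → (q₁' - q₁) * k₁ + (q₂' - q₂) * k₂ ≤ 10 * M * l ^ 2 := by
  intro k₁ k₂ hk1 hk2
  have e1 := hlo' k₁ k₂ l hk1 hk2 (by linarith)
  have e2 := hup (z'.1 - z.1 + k₁) (z'.2 - z.2 + k₂) (2 * l)
    ((abs_add_le _ _).trans (by linarith)) ((abs_add_le _ _).trans (by linarith)) hlr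
  have e3 := hlo (z'.1 - z.1) (z'.2 - z.2) l h1 h2 (by linarith)
  rw [show z.1 + (z'.1 - z.1 + k₁) = z'.1 + k₁ by ring,
    show z.2 + (z'.2 - z.2 + k₂) = z'.2 + k₂ by ring] at e2
  rw [show z.1 + (z'.1 - z.1) = z'.1 by ring, show z.2 + (z'.2 - z.2) = z'.2 by ring] at e3
  have e4 : F (z'.1, z'.2) = F z' := rfl
  rw [e4] at e3
  nlinarith

/-- Localisation: a continuous function which vanishes at two points of the first axis and is
positive between them has, after adding a quadratic form, its maximum over a compact set well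
inside this set. -/
lemma rect (g : ℝ × ℝ → ℝ) (hgc : Continuous g) (a b : ℝ) (ha : 0 ≤ a) (hb : 0 ≤ b)
    (hab : a + b = 1) (hg0 : g (-b, 0) = 0) (hg1 : g (a, 0) = 0) (h₀ : ℝ)
    (hh0pos : 0 < h₀) :
    ∃ (ε K η ρ : ℝ) (R : Set (ℝ × ℝ)), 0 < ε ∧ 0 < K ∧ 0 < η ∧ 0 < ρ ∧ IsCompact R ∧
      ((0:ℝ), (0:ℝ)) ∈ R ∧ ∀ σ ∈ R, h₀ - η ≤ g σ + ε * σ.1 ^ 2 - K * σ.2 ^ 2 →
        ∀ τ, dist τ σ < ρ → τ ∈ R := by
  -- the width of the rectangle
  obtain ⟨δ, hδ, hδ1, hδ2⟩ : ∃ δ > 0, (∀ t, |t| ≤ δ → g (-b, t) < h₀ / 4) ∧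
      (∀ t, |t| ≤ δ → g (a, t) < h₀ / 4) := by
    have c1 : Filter.Tendsto (fun t : ℝ => g (-b, t)) (nhds 0) (nhds 0) := by
      have : ContinuousAt (fun t : ℝ => g (-b, t)) 0 := by fun_prop
      have h := this.tendsto
      simp only [hg0] at h
      exact h
    have c2 : Filter.Tendsto (fun t : ℝ => g (a, t)) (nhds 0) (nhds 0) := by
      have : ContinuousAt (fun t : ℝ => g (a, t)) 0 := by fun_prop
      have h := this.tendsto
      simp only [hg1] at h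
      exact h
    have n1 : ∀ᶠ t in nhds (0:ℝ), g (-b, t) < h₀ / 4 :=
      c1.eventually (gt_mem_nhds (by positivity))
    have n2 : ∀ᶠ t in nhds (0:ℝ), g (a, t) < h₀ / 4 :=
      c2.eventually (gt_mem_nhds (by positivity))
    obtain ⟨e, he, hball⟩ := Metric.eventually_nhds_iff.mp (n1.and n2)
    refine ⟨e / 2, by positivity, fun t ht => ?_, fun t ht => ?_⟩
    · exact (hball (by rw [Real.dist_eq, sub_zero]; linarith)).1
    · exact (hball (by rw [Real.dist_eq, sub_zero]; linarith)).2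
  have hRc : IsCompact (Icc (-b) a ×ˢ Icc (-δ) δ) := isCompact_Icc.prod isCompact_Icc
  have h00 : ((0:ℝ), (0:ℝ)) ∈ Icc (-b) a ×ˢ Icc (-δ) δ :=
    ⟨⟨by simpa using hb, ha⟩, ⟨by simpa using hδ.le, hδ.le⟩⟩
  obtain ⟨Mg, hMg0, hMg⟩ : ∃ Mg, 0 ≤ Mg ∧ ∀ σ ∈ Icc (-b) a ×ˢ Icc (-δ) δ, g σ ≤ Mg := by
    obtain ⟨B, hB⟩ := hRc.exists_bound_of_continuousOn hgc.continuousOn
    exact ⟨B, (norm_nonneg _).trans (hB _ h00), fun σ hσ => (le_abs_self _).trans (hB σ hσ)⟩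
  have hGc : Continuous (fun σ : ℝ × ℝ => g σ + h₀ / 4 * σ.1 ^ 2 - (Mg + h₀) / δ ^ 2 * σ.2 ^ 2) := by
    fun_prop
  have hOo : IsOpen (Ioo (-b) a ×ˢ Ioo (-δ) δ) := isOpen_Ioo.prod isOpen_Ioo
  have hKcc : IsCompact ((Icc (-b) a ×ˢ Icc (-δ) δ) ∩
      {σ : ℝ × ℝ | h₀ - h₀ / 4 ≤ g σ + h₀ / 4 * σ.1 ^ 2 - (Mg + h₀) / δ ^ 2 * σ.2 ^ 2}) :=
    hRc.inter_right (isClosed_le continuous_const hGc)
  have hKcO : ((Icc (-b) a ×ˢ Icc (-δ) δ) ∩
      {σ : ℝ × ℝ | h₀ - h₀ / 4 ≤ g σ + h₀ / 4 * σ.1 ^ 2 - (Mg + h₀) / δ ^ 2 * σ.2 ^ 2}) ⊆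
      Ioo (-b) a ×ˢ Ioo (-δ) δ := by
    rintro ⟨s, t⟩ ⟨hR', hGe⟩
    have hR := hR'
    obtain ⟨⟨h1, h2⟩, ⟨h3, h4⟩⟩ := hR'
    have h1' : -b ≤ s := h1
    have h2' : s ≤ a := h2
    have h3' : -δ ≤ t := h3
    have h4' : t ≤ δ := h4
    clear h1 h2 h3 h4
    have hs2 : s ^ 2 ≤ 1 := by
      rw [sq_le_one_iff_abs_le_one, abs_le]
      constructor <;> linarith
    have hGe' : h₀ - h₀ / 4 ≤ g (s, t) + h₀ / 4 * s ^ 2 - (Mg + h₀) / δ ^ 2 * t ^ 2 := hGe
    have htt : |t| ≤ δ := abs_le.mpr ⟨h3', h4'⟩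
    have hKt : 0 ≤ (Mg + h₀) / δ ^ 2 * t ^ 2 := by positivity
    have hεs : h₀ / 4 * s ^ 2 ≤ h₀ / 4 := by
      have := mul_le_mul_of_nonneg_left hs2 (show 0 ≤ h₀ / 4 by positivity)
      linarith
    have hend : t ^ 2 = δ ^ 2 → False := by
      intro h7
      have h6 := hMg (s, t) hR
      have h8 : (Mg + h₀) / δ ^ 2 * t ^ 2 = Mg + h₀ := by rw [h7]; field_simp
      rw [h8] at hGe'
      linarith
    refine ⟨⟨lt_of_le_of_ne h1' ?_, lt_of_le_of_ne h2' ?_⟩, ⟨lt_of_le_of_ne h3' ?_,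
      lt_of_le_of_ne h4' ?_⟩⟩
    · intro h5
      have := hδ1 t htt
      rw [h5] at this
      linarith
    · intro h5
      have h5' : s = a := h5
      have := hδ2 t htt
      rw [← h5'] at this
      linarith
    · intro h5
      have h5' : -δ = t := h5
      exact hend (by rw [← h5']; ring)
    · intro h5
      have h5' : t = δ := h5
      exact hend (by rw [h5'])
  obtain ⟨ρ, hρ, hρO⟩ := hKcc.exists_thickening_subset_open hOo hKcO
  refine ⟨h₀ / 4, (Mg + h₀) / δ ^ 2, h₀ / 4, ρ, Icc (-b) a ×ˢ Icc (-δ) δ, by positivity,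
    by positivity, by positivity, hρ, hRc, h00, ?_⟩
  intro σ hσ hge τ hτ
  have h1 : τ ∈ Ioo (-b) a ×ˢ Ioo (-δ) δ :=
    hρO (Metric.mem_thickening_iff.mpr ⟨σ, ⟨hσ, hge⟩, hτ⟩)
  exact prod_mono Ioo_subset_Icc_self Ioo_subset_Icc_self h1

/-- Localisation of a failure of convexity. -/
lemma localize (F : ℝ × ℝ → ℝ) (hF : Continuous F) (x y : ℝ × ℝ) (a b : ℝ) (ha : 0 ≤ a)
    (hb : 0 ≤ b) (hab : a + b = 1) (hcon : a * F x + b * F y < F (a • x + b • y)) :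
    ∃ (m₁ m₂ w₁ w₂ c ε K η ρ : ℝ) (R : Set (ℝ × ℝ)), 0 < w₁ ^ 2 + w₂ ^ 2 ∧ 0 < ε ∧ 0 < K ∧
      0 < η ∧ 0 < ρ ∧ IsCompact R ∧ ((0:ℝ), (0:ℝ)) ∈ R ∧
      ∀ σ ∈ R, F (m₁, m₂) - η ≤ F (m₁ + σ.1 * w₁ - σ.2 * w₂, m₂ + σ.1 * w₂ + σ.2 * w₁) - c * σ.1
        + ε * σ.1 ^ 2 - K * σ.2 ^ 2 → ∀ τ, dist τ σ < ρ → τ ∈ R := by
  have hb1 : b = 1 - a := by linarith
  have hm : a • x + b • y = (a * x.1 + b * y.1, a * x.2 + b * y.2) := rfl
  rw [hm] at hcon
  have hwne : 0 < (y.1 - x.1) ^ 2 + (y.2 - x.2) ^ 2 := by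
    by_contra h
    push Not at h
    have e1 : (y.1 - x.1) ^ 2 = 0 := by
      have := sq_nonneg (y.1 - x.1); have := sq_nonneg (y.2 - x.2); linarith
    have e2 : (y.2 - x.2) ^ 2 = 0 := by
      have := sq_nonneg (y.1 - x.1); have := sq_nonneg (y.2 - x.2); linarith
    have e3 : y.1 - x.1 = 0 := by simpa using e1
    have e4 : y.2 - x.2 = 0 := by simpa using e2
    have hxy : x = y := Prod.ext (by linarith) (by linarith)
    rw [hxy, show (a * y.1 + b * y.1, a * y.2 + b * y.2) = y from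
      Prod.ext (by simp only; rw [← add_mul, hab, one_mul])
        (by simp only; rw [← add_mul, hab, one_mul]),
      ← add_mul, hab, one_mul] at hcon
    exact lt_irrefl _ hcon
  obtain ⟨ε, K, η, ρ, R, h1, h2, h3, h4, h5, h6, h7⟩ := rect
    (fun σ => F (a * x.1 + b * y.1 + σ.1 * (y.1 - x.1) - σ.2 * (y.2 - x.2),
      a * x.2 + b * y.2 + σ.1 * (y.2 - x.2) + σ.2 * (y.1 - x.1)) - (F y - F x) * σ.1
      - (a * F x + b * F y)) (by fun_prop) a b ha hb hab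
    (by
      have : (a * x.1 + b * y.1 + (-b) * (y.1 - x.1) - 0 * (y.2 - x.2),
        a * x.2 + b * y.2 + (-b) * (y.2 - x.2) + 0 * (y.1 - x.1)) = x := by
        apply Prod.ext
        · simp only; rw [hb1]; ring
        · simp only; rw [hb1]; ring
      simp only
      rw [this, hb1]; ring)
    (by
      have : (a * x.1 + b * y.1 + a * (y.1 - x.1) - 0 * (y.2 - x.2),
        a * x.2 + b * y.2 + a * (y.2 - x.2) + 0 * (y.1 - x.1)) = y := by
        apply Prod.ext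
        · simp only; rw [hb1]; ring
        · simp only; rw [hb1]; ring
      simp only
      rw [this, hb1]; ring)
    (F (a * x.1 + b * y.1, a * x.2 + b * y.2) - (a * F x + b * F y)) (by linarith)
  refine ⟨a * x.1 + b * y.1, a * x.2 + b * y.2, y.1 - x.1, y.2 - x.2, F y - F x, ε, K, η, ρ, R,
    hwne, h1, h2, h3, h4, h5, h6, ?_⟩
  intro σ hσ hge
  apply h7 σ hσ
  linarith

/-- The data of a contact point. -/
lemma contact (F : ℝ × ℝ → ℝ) (hF : Continuous F) (A : Set (ℝ × ℝ))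
    (hloc : ∀ z ∉ A, ∀ w₁ w₂ : ℝ, ∃ η₀ > 0, ∀ η, 0 < η → η < η₀ →
      2 * F z ≤ F (z.1 - η * w₁, z.2 - η * w₂) + F (z.1 + η * w₁, z.2 + η * w₂))
    (m₁ m₂ w₁ w₂ c ε K η ρ : ℝ) (R : Set (ℝ × ℝ)) (hD : 0 < w₁ ^ 2 + w₂ ^ 2) (hε : 0 < ε)
    (hK : 0 < K) (hρ : 0 < ρ) (hR : IsCompact R) (h00 : ((0:ℝ), (0:ℝ)) ∈ R)
    (hin : ∀ σ ∈ R, F (m₁, m₂) - η ≤ F (m₁ + σ.1 * w₁ - σ.2 * w₂, m₂ + σ.1 * w₂ + σ.2 * w₁)
        - c * σ.1 + ε * σ.1 ^ 2 - K * σ.2 ^ 2 → ∀ τ, dist τ σ < ρ → τ ∈ R)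
    (p₁ p₂ : ℝ) (hp : ∀ σ ∈ R, |p₁ * (σ.1 * w₁ - σ.2 * w₂) + p₂ * (σ.1 * w₂ + σ.2 * w₁)| ≤ η) :
    ∃ s t : ℝ, (m₁ + s * w₁ - t * w₂, m₂ + s * w₂ + t * w₁) ∈ A ∧
      ∀ h₁ h₂ l : ℝ, |h₁| ≤ l → |h₂| ≤ l →
        (|w₁| + |w₂|) * l < ρ * (w₁ ^ 2 + w₂ ^ 2) →
        F (m₁ + s * w₁ - t * w₂ + h₁, m₂ + s * w₂ + t * w₁ + h₂) ≤
          F (m₁ + s * w₁ - t * w₂, m₂ + s * w₂ + t * w₁) +
          (((c - 2 * ε * s) * (w₁ / (w₁ ^ 2 + w₂ ^ 2)) - 2 * K * t * (w₂ / (w₁ ^ 2 + w₂ ^ 2)) + p₁) * h₁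
          + ((c - 2 * ε * s) * (w₂ / (w₁ ^ 2 + w₂ ^ 2)) + 2 * K * t * (w₁ / (w₁ ^ 2 + w₂ ^ 2)) + p₂) * h₂)
          + K * ((|w₁| + |w₂|) / (w₁ ^ 2 + w₂ ^ 2)) ^ 2 * l ^ 2 := by
  obtain ⟨σ, hσR, hσ⟩ := hR.exists_isMaxOn (f := fun σ : ℝ × ℝ =>
    F (m₁ + σ.1 * w₁ - σ.2 * w₂, m₂ + σ.1 * w₂ + σ.2 * w₁) - c * σ.1 + ε * σ.1 ^ 2 - K * σ.2 ^ 2
      - (p₁ * (σ.1 * w₁ - σ.2 * w₂) + p₂ * (σ.1 * w₂ + σ.2 * w₁))) ⟨_, h00⟩
    (Continuous.continuousOn (by fun_prop))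
  obtain ⟨s, t⟩ := σ
  have hmax : ∀ s' t' : ℝ, (s', t') ∈ R →
      F (m₁ + s' * w₁ - t' * w₂, m₂ + s' * w₂ + t' * w₁) - c * s' + ε * s' ^ 2 - K * t' ^ 2
      - (p₁ * (s' * w₁ - t' * w₂) + p₂ * (s' * w₂ + t' * w₁)) ≤
      F (m₁ + s * w₁ - t * w₂, m₂ + s * w₂ + t * w₁) - c * s + ε * s ^ 2 - K * t ^ 2
      - (p₁ * (s * w₁ - t * w₂) + p₂ * (s * w₂ + t * w₁)) := fun s' t' h => hσ h
  have h0 := hmax 0 0 h00
  have hps := hp (s, t) hσR
  simp only at hps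
  rw [abs_le] at hps
  have hball := hin (s, t) hσR (by
    simp only [zero_mul, add_zero, sub_zero, mul_zero, ne_eq, OfNat.ofNat_ne_zero,
      not_false_eq_true, zero_pow] at h0
    simp only
    linarith [hps.1])
  refine ⟨s, t, ?_, ?_⟩
  · -- the contact point lies in A
    by_contra hA
    obtain ⟨η₀, hη0, hη⟩ := hloc _ hA w₁ w₂
    set e := min (η₀ / 2) (ρ / 2) with he
    have he0 : 0 < e := lt_min (by positivity) (by positivity)
    have he1 : e < η₀ := lt_of_le_of_lt (min_le_left _ _) (by linarith)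
    have he2 : e < ρ := lt_of_le_of_lt (min_le_right _ _) (by linarith)
    have k1 := hη e he0 he1
    have k2 := hmax (s + e) t (hball _ (by
      rw [Prod.dist_eq]
      simp only [dist_self, Real.dist_eq, add_sub_cancel_left]
      rw [abs_of_pos he0]
      exact max_lt he2 hρ))
    have k3 := hmax (s - e) t (hball _ (by
      rw [Prod.dist_eq]
      simp only [dist_self, Real.dist_eq, sub_sub_cancel_left, abs_neg]
      rw [abs_of_pos he0]
      exact max_lt he2 hρ))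
    simp only at k1
    rw [show m₁ + s * w₁ - t * w₂ - e * w₁ = m₁ + (s - e) * w₁ - t * w₂ by ring,
      show m₂ + s * w₂ + t * w₁ - e * w₂ = m₂ + (s - e) * w₂ + t * w₁ by ring,
      show m₁ + s * w₁ - t * w₂ + e * w₁ = m₁ + (s + e) * w₁ - t * w₂ by ring,
      show m₂ + s * w₂ + t * w₁ + e * w₂ = m₂ + (s + e) * w₂ + t * w₁ by ring] at k1
    have k4 : 0 < ε * e ^ 2 := by positivity
    linarith
  · intro h₁ h₂ l hl1 hl2 hlr
    set D := w₁ ^ 2 + w₂ ^ 2 with hDdef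
    set W := |w₁| + |w₂| with hW
    have hl0 : 0 ≤ l := (abs_nonneg _).trans hl1
    have hA1 : |(w₁ * h₁ + w₂ * h₂) / D| ≤ W / D * l := by
      rw [abs_div, abs_of_pos hD, div_mul_eq_mul_div]
      apply div_le_div_of_nonneg_right _ hD.le
      calc |w₁ * h₁ + w₂ * h₂| ≤ |w₁ * h₁| + |w₂ * h₂| := abs_add_le _ _
        _ = |w₁| * |h₁| + |w₂| * |h₂| := by rw [abs_mul, abs_mul]
        _ ≤ |w₁| * l + |w₂| * l := by gcongr
        _ = W * l := by rw [hW]; ring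
    have hA2 : |(-w₂ * h₁ + w₁ * h₂) / D| ≤ W / D * l := by
      rw [abs_div, abs_of_pos hD, div_mul_eq_mul_div]
      apply div_le_div_of_nonneg_right _ hD.le
      calc |-w₂ * h₁ + w₁ * h₂| ≤ |-w₂ * h₁| + |w₁ * h₂| := abs_add_le _ _
        _ = |w₂| * |h₁| + |w₁| * |h₂| := by rw [abs_mul, abs_mul, abs_neg]
        _ ≤ |w₂| * l + |w₁| * l := by gcongr
        _ = W * l := by rw [hW]; ring
    have hlt : W / D * l < ρ := by
      rw [div_mul_eq_mul_div, div_lt_iff₀ hD]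
      exact hlr
    have k := hmax (s + (w₁ * h₁ + w₂ * h₂) / D) (t + (-w₂ * h₁ + w₁ * h₂) / D) (hball _ (by
      rw [Prod.dist_eq]
      simp only [Real.dist_eq, add_sub_cancel_left]
      exact max_lt (hA1.trans_lt hlt) (hA2.trans_lt hlt)))
    have r1 : m₁ + (s + (w₁ * h₁ + w₂ * h₂) / D) * w₁ - (t + (-w₂ * h₁ + w₁ * h₂) / D) * w₂
        = m₁ + s * w₁ - t * w₂ + h₁ := by
      field_simp
      rw [hDdef]
      ring
    have r2 : m₂ + (s + (w₁ * h₁ + w₂ * h₂) / D) * w₂ + (t + (-w₂ * h₁ + w₁ * h₂) / D) * w₁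
        = m₂ + s * w₂ + t * w₁ + h₂ := by
      field_simp
      rw [hDdef]
      ring
    have r3 : p₁ * ((s + (w₁ * h₁ + w₂ * h₂) / D) * w₁ - (t + (-w₂ * h₁ + w₁ * h₂) / D) * w₂) +
        p₂ * ((s + (w₁ * h₁ + w₂ * h₂) / D) * w₂ + (t + (-w₂ * h₁ + w₁ * h₂) / D) * w₁)
        = p₁ * (s * w₁ - t * w₂) + p₂ * (s * w₂ + t * w₁) + (p₁ * h₁ + p₂ * h₂) := by
      linear_combination p₁ * r1 + p₂ * r2
    rw [r1, r2, r3] at k
    set α := (w₁ * h₁ + w₂ * h₂) / D with hα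
    set β := (-w₂ * h₁ + w₁ * h₂) / D with hβ
    have hβ2 : K * β ^ 2 ≤ K * (W / D) ^ 2 * l ^ 2 := by
      have : β ^ 2 ≤ (W / D * l) ^ 2 := sq_le_sq' (by linarith [(abs_le.mp hA2).1])
        (abs_le.mp hA2).2
      calc K * β ^ 2 ≤ K * (W / D * l) ^ 2 := mul_le_mul_of_nonneg_left this hK.le
        _ = _ := by ring
    have hα2 : 0 ≤ ε * α ^ 2 := by positivity
    have r4 : ((c - 2 * ε * s) * (w₁ / D) - 2 * K * t * (w₂ / D) + p₁) * h₁
          + ((c - 2 * ε * s) * (w₂ / D) + 2 * K * t * (w₁ / D) + p₂) * h₂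
        = (c - 2 * ε * s) * α + 2 * K * t * β + (p₁ * h₁ + p₂ * h₂) := by
      rw [hα, hβ]
      ring
    rw [r4]
    linarith

/-- Slopes at contact points depend in a Lipschitz way on the contact point. -/
lemma slope_bound (F : ℝ × ℝ → ℝ)
    (hH : ∀ z : ℝ × ℝ, ∀ τ : ℝ, 2 * F z ≤ F (z.1 - τ, z.2) + F (z.1 + τ, z.2))
    (hV : ∀ z : ℝ × ℝ, ∀ τ : ℝ, 2 * F z ≤ F (z.1, z.2 - τ) + F (z.1, z.2 + τ))
    (m₁ m₂ w₁ w₂ c ε K N M r : ℝ) (hD : 0 < w₁ ^ 2 + w₂ ^ 2) (hε : 0 < ε) (hK : 0 < K)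
    (hN : N = (|w₁| + |w₂|) / (w₁ ^ 2 + w₂ ^ 2))
    (s t p₁ p₂ s' t' p₁' p₂' : ℝ) (z z' : ℝ × ℝ)
    (hz : z = (m₁ + s * w₁ - t * w₂, m₂ + s * w₂ + t * w₁))
    (hz' : z' = (m₁ + s' * w₁ - t' * w₂, m₂ + s' * w₂ + t' * w₁))
    (hup : ∀ h₁ h₂ l : ℝ, |h₁| ≤ l → |h₂| ≤ l → l ≤ r → F (z.1 + h₁, z.2 + h₂) ≤ F z +
      (((c - 2 * ε * s) * (w₁ / (w₁ ^ 2 + w₂ ^ 2)) - 2 * K * t * (w₂ / (w₁ ^ 2 + w₂ ^ 2)) + p₁) * h₁
      + ((c - 2 * ε * s) * (w₂ / (w₁ ^ 2 + w₂ ^ 2)) + 2 * K * t * (w₁ / (w₁ ^ 2 + w₂ ^ 2)) + p₂) * h₂)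
      + M * l ^ 2)
    (hup' : ∀ h₁ h₂ l : ℝ, |h₁| ≤ l → |h₂| ≤ l → l ≤ r → F (z'.1 + h₁, z'.2 + h₂) ≤ F z' +
      (((c - 2 * ε * s') * (w₁ / (w₁ ^ 2 + w₂ ^ 2)) - 2 * K * t' * (w₂ / (w₁ ^ 2 + w₂ ^ 2)) + p₁') * h₁
      + ((c - 2 * ε * s') * (w₂ / (w₁ ^ 2 + w₂ ^ 2)) + 2 * K * t' * (w₁ / (w₁ ^ 2 + w₂ ^ 2)) + p₂') * h₂)
      + M * l ^ 2)
    (l : ℝ) (hl : 0 < l) (hlr : 2 * l ≤ r) (hd : dist z' z ≤ l) :
    |p₁' - p₁| ≤ (10 * M + 2 * (ε + K) * N ^ 2) * l ∧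
    |p₂' - p₂| ≤ (10 * M + 2 * (ε + K) * N ^ 2) * l := by
  rw [Prod.dist_eq, max_le_iff, Real.dist_eq, Real.dist_eq] at hd
  obtain ⟨d1, d2⟩ := hd
  have hlo := two_sided F hH hV z _ _ M r hup
  have hlo' := two_sided F hH hV z' _ _ M r hup'
  have key := slope_diff F z z' _ _ _ _ M r hup hlo hlo' l hl hlr d1 d2
  set D := w₁ ^ 2 + w₂ ^ 2 with hDd
  have hN0 : 0 ≤ N := by rw [hN]; positivity
  have hw1 : |w₁ / D| ≤ N := by
    rw [abs_div, abs_of_pos hD, hN]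
    exact div_le_div_of_nonneg_right (by linarith [abs_nonneg w₂]) hD.le
  have hw2 : |w₂ / D| ≤ N := by
    rw [abs_div, abs_of_pos hD, hN]
    exact div_le_div_of_nonneg_right (by linarith [abs_nonneg w₁]) hD.le
  have hs : s' - s = (w₁ / D) * (z'.1 - z.1) + (w₂ / D) * (z'.2 - z.2) := by
    rw [hz, hz']
    simp only
    field_simp
    rw [hDd]
    ring
  have ht : t' - t = -(w₂ / D) * (z'.1 - z.1) + (w₁ / D) * (z'.2 - z.2) := by
    rw [hz, hz']
    simp only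
    field_simp
    rw [hDd]
    ring
  have hsum : |w₁ / D| + |w₂ / D| ≤ N := by
    rw [abs_div, abs_div, abs_of_pos hD, hN, add_div]
  have hs' : |s' - s| ≤ N * l := by
    rw [hs]
    calc |(w₁ / D) * (z'.1 - z.1) + (w₂ / D) * (z'.2 - z.2)|
        ≤ |(w₁ / D) * (z'.1 - z.1)| + |(w₂ / D) * (z'.2 - z.2)| := abs_add_le _ _
      _ = |w₁ / D| * |z'.1 - z.1| + |w₂ / D| * |z'.2 - z.2| := by rw [abs_mul, abs_mul]
      _ ≤ |w₁ / D| * l + |w₂ / D| * l := by gcongr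
      _ = (|w₁ / D| + |w₂ / D|) * l := by ring
      _ ≤ N * l := by gcongr
  have ht' : |t' - t| ≤ N * l := by
    rw [ht]
    calc |-(w₂ / D) * (z'.1 - z.1) + (w₁ / D) * (z'.2 - z.2)|
        ≤ |-(w₂ / D) * (z'.1 - z.1)| + |(w₁ / D) * (z'.2 - z.2)| := abs_add_le _ _
      _ = |w₂ / D| * |z'.1 - z.1| + |w₁ / D| * |z'.2 - z.2| := by rw [abs_mul, abs_mul, abs_neg]
      _ ≤ |w₂ / D| * l + |w₁ / D| * l := by gcongr
      _ = (|w₁ / D| + |w₂ / D|) * l := by ring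
      _ ≤ N * l := by gcongr
  have b1 : |(s' - s) * (w₁ / D)| ≤ N ^ 2 * l := by
    rw [abs_mul]
    calc |s' - s| * |w₁ / D| ≤ (N * l) * N := mul_le_mul hs' hw1 (abs_nonneg _) (by positivity)
      _ = _ := by ring
  have b2 : |(s' - s) * (w₂ / D)| ≤ N ^ 2 * l := by
    rw [abs_mul]
    calc |s' - s| * |w₂ / D| ≤ (N * l) * N := mul_le_mul hs' hw2 (abs_nonneg _) (by positivity)
      _ = _ := by ring
  have b3 : |(t' - t) * (w₁ / D)| ≤ N ^ 2 * l := by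
    rw [abs_mul]
    calc |t' - t| * |w₁ / D| ≤ (N * l) * N := mul_le_mul ht' hw1 (abs_nonneg _) (by positivity)
      _ = _ := by ring
  have b4 : |(t' - t) * (w₂ / D)| ≤ N ^ 2 * l := by
    rw [abs_mul]
    calc |t' - t| * |w₂ / D| ≤ (N * l) * N := mul_le_mul ht' hw2 (abs_nonneg _) (by positivity)
      _ = _ := by ring
  rw [abs_le] at b1 b2 b3 b4
  have k1 := key l 0 (abs_of_pos hl).le (by simpa using hl.le)
  have k2 := key (-l) 0 (by rw [abs_neg]; exact (abs_of_pos hl).le) (by simpa using hl.le)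
  have k3 := key 0 l (by simpa using hl.le) (abs_of_pos hl).le
  have k4 := key 0 (-l) (by simpa using hl.le) (by rw [abs_neg]; exact (abs_of_pos hl).le)
  have cancel : ∀ X : ℝ, X * l ≤ 10 * M * l ^ 2 → X ≤ 10 * M * l := by
    intro X hX
    have : X * l ≤ (10 * M * l) * l := by linarith
    exact le_of_mul_le_mul_right this hl
  have e1 := cancel _ (by linarith [k1] :
    ((c - 2 * ε * s') * (w₁ / D) - 2 * K * t' * (w₂ / D) + p₁' -
      ((c - 2 * ε * s) * (w₁ / D) - 2 * K * t * (w₂ / D) + p₁)) * l ≤ 10 * M * l ^ 2)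
  have e2 := cancel _ (by linarith [k2] :
    (-((c - 2 * ε * s') * (w₁ / D) - 2 * K * t' * (w₂ / D) + p₁' -
      ((c - 2 * ε * s) * (w₁ / D) - 2 * K * t * (w₂ / D) + p₁))) * l ≤ 10 * M * l ^ 2)
  have e3 := cancel _ (by linarith [k3] :
    ((c - 2 * ε * s') * (w₂ / D) + 2 * K * t' * (w₁ / D) + p₂' -
      ((c - 2 * ε * s) * (w₂ / D) + 2 * K * t * (w₁ / D) + p₂)) * l ≤ 10 * M * l ^ 2)
  have e4 := cancel _ (by linarith [k4] :
    (-((c - 2 * ε * s') * (w₂ / D) + 2 * K * t' * (w₁ / D) + p₂' -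
      ((c - 2 * ε * s) * (w₂ / D) + 2 * K * t * (w₁ / D) + p₂))) * l ≤ 10 * M * l ^ 2)
  have m1 := mul_le_mul_of_nonneg_left b1.1 (show 0 ≤ 2 * ε by positivity)
  have m1' := mul_le_mul_of_nonneg_left b1.2 (show 0 ≤ 2 * ε by positivity)
  have m2 := mul_le_mul_of_nonneg_left b2.1 (show 0 ≤ 2 * ε by positivity)
  have m2' := mul_le_mul_of_nonneg_left b2.2 (show 0 ≤ 2 * ε by positivity)
  have m3 := mul_le_mul_of_nonneg_left b3.1 (show 0 ≤ 2 * K by positivity)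
  have m3' := mul_le_mul_of_nonneg_left b3.2 (show 0 ≤ 2 * K by positivity)
  have m4 := mul_le_mul_of_nonneg_left b4.1 (show 0 ≤ 2 * K by positivity)
  have m4' := mul_le_mul_of_nonneg_left b4.2 (show 0 ≤ 2 * K by positivity)
  constructor
  · rw [abs_le]
    constructor <;> linarith
  · rw [abs_le]
    constructor <;> linarith

/-- The main lemma: a continuous separately convex function which is locally convex off a null set
is convex. -/
theorem main_lemma (F : ℝ × ℝ → ℝ) (hF : Continuous F) (A : Set (ℝ × ℝ)) (hA : volume A = 0)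
    (hH : ∀ z : ℝ × ℝ, ∀ τ : ℝ, 2 * F z ≤ F (z.1 - τ, z.2) + F (z.1 + τ, z.2))
    (hV : ∀ z : ℝ × ℝ, ∀ τ : ℝ, 2 * F z ≤ F (z.1, z.2 - τ) + F (z.1, z.2 + τ))
    (hloc : ∀ z ∉ A, ∀ w₁ w₂ : ℝ, ∃ η₀ > 0, ∀ η, 0 < η → η < η₀ →
      2 * F z ≤ F (z.1 - η * w₁, z.2 - η * w₂) + F (z.1 + η * w₁, z.2 + η * w₂)) :
    ConvexOn ℝ univ F := by
  refine ⟨convex_univ, ?_⟩
  intro x _ y _ a b ha hb hab
  by_contra hcon
  push Not at hcon
  obtain ⟨m₁, m₂, w₁, w₂, c, ε, K, η, ρ, R, hD, hε, hK, hη, hρ, hRc, h00, hin⟩ :=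
    localize F hF x y a b ha hb hab hcon
  -- bound on the compact set
  obtain ⟨B₁, hB₁⟩ := hRc.exists_bound_of_continuousOn
    (f := fun σ : ℝ × ℝ => σ.1 * w₁ - σ.2 * w₂) (Continuous.continuousOn (by fun_prop))
  obtain ⟨B₂, hB₂⟩ := hRc.exists_bound_of_continuousOn
    (f := fun σ : ℝ × ℝ => σ.1 * w₂ + σ.2 * w₁) (Continuous.continuousOn (by fun_prop))
  have hB1 : 0 ≤ B₁ := (norm_nonneg _).trans (hB₁ _ h00)
  have hB2 : 0 ≤ B₂ := (norm_nonneg _).trans (hB₂ _ h00)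
  set κ := η / (B₁ + B₂ + 1) with hκ
  have hκ0 : 0 < κ := by positivity
  have hpbound : ∀ p : closedBall (0 : ℝ × ℝ) κ, |p.1.1| ≤ κ ∧ |p.1.2| ≤ κ := by
    intro p
    have := p.2
    rw [mem_closedBall, dist_zero_right, Prod.norm_def, max_le_iff] at this
    exact this
  have hp : ∀ p : closedBall (0 : ℝ × ℝ) κ, ∀ σ ∈ R,
      |p.1.1 * (σ.1 * w₁ - σ.2 * w₂) + p.1.2 * (σ.1 * w₂ + σ.2 * w₁)| ≤ η := by
    intro p σ hσ
    obtain ⟨q1, q2⟩ := hpbound p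
    have r1 : |σ.1 * w₁ - σ.2 * w₂| ≤ B₁ := hB₁ σ hσ
    have r2 : |σ.1 * w₂ + σ.2 * w₁| ≤ B₂ := hB₂ σ hσ
    calc |p.1.1 * (σ.1 * w₁ - σ.2 * w₂) + p.1.2 * (σ.1 * w₂ + σ.2 * w₁)|
        ≤ |p.1.1 * (σ.1 * w₁ - σ.2 * w₂)| + |p.1.2 * (σ.1 * w₂ + σ.2 * w₁)| := abs_add_le _ _
      _ = |p.1.1| * |σ.1 * w₁ - σ.2 * w₂| + |p.1.2| * |σ.1 * w₂ + σ.2 * w₁| := by
        rw [abs_mul, abs_mul]
      _ ≤ κ * B₁ + κ * B₂ := by gcongr
      _ ≤ κ * (B₁ + B₂ + 1) := by linarith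
      _ = η := by rw [hκ]; field_simp
  have hcontact := fun p : closedBall (0 : ℝ × ℝ) κ => contact F hF A hloc m₁ m₂ w₁ w₂ c ε K η ρ R
    hD hε hK hρ hRc h00 hin p.1.1 p.1.2 (hp p)
  choose s t hstA hst using hcontact
  set z : closedBall (0 : ℝ × ℝ) κ → ℝ × ℝ := fun p =>
    (m₁ + s p * w₁ - t p * w₂, m₂ + s p * w₂ + t p * w₁) with hz
  set W := |w₁| + |w₂| with hW
  set N := W / (w₁ ^ 2 + w₂ ^ 2) with hN
  have hWpos : 0 < W := by
    by_contra h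
    push Not at h
    have a1 : w₁ = 0 := by
      have := abs_nonneg w₁; have := abs_nonneg w₂
      have : |w₁| = 0 := by linarith
      simpa using this
    have a2 : w₂ = 0 := by
      have := abs_nonneg w₁; have := abs_nonneg w₂
      have : |w₂| = 0 := by linarith
      simpa using this
    rw [a1, a2] at hD
    simp at hD
  set r := ρ * (w₁ ^ 2 + w₂ ^ 2) / (2 * W) with hr
  have hr0 : 0 < r := by positivity
  have hup : ∀ p, ∀ h₁ h₂ l : ℝ, |h₁| ≤ l → |h₂| ≤ l → l ≤ r →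
      F ((z p).1 + h₁, (z p).2 + h₂) ≤ F (z p) +
      (((c - 2 * ε * s p) * (w₁ / (w₁ ^ 2 + w₂ ^ 2)) - 2 * K * t p * (w₂ / (w₁ ^ 2 + w₂ ^ 2))
        + p.1.1) * h₁
      + ((c - 2 * ε * s p) * (w₂ / (w₁ ^ 2 + w₂ ^ 2)) + 2 * K * t p * (w₁ / (w₁ ^ 2 + w₂ ^ 2))
        + p.1.2) * h₂)
      + (K * N ^ 2) * l ^ 2 := by
    intro p h₁ h₂ l g1 g2 g3
    apply hst p h₁ h₂ l g1 g2
    have : W * r = ρ * (w₁ ^ 2 + w₂ ^ 2) / 2 := by rw [hr]; field_simp
    have h4 : W * l ≤ W * r := mul_le_mul_of_nonneg_left g3 hWpos.le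
    have h5 : 0 < ρ * (w₁ ^ 2 + w₂ ^ 2) := by positivity
    linarith
  set C₁ := 10 * (K * N ^ 2) + 2 * (ε + K) * N ^ 2 with hC1
  have hN0 : 0 < N := by positivity
  have hC10 : 0 < C₁ := by positivity
  have hlip : ∀ p p' : closedBall (0 : ℝ × ℝ) κ, ∀ l, 0 < l → 2 * l ≤ r → dist (z p') (z p) ≤ l →
      dist p' p ≤ C₁ * l := by
    intro p p' l hl hlr hd
    obtain ⟨e1, e2⟩ := slope_bound F hH hV m₁ m₂ w₁ w₂ c ε K N (K * N ^ 2) r hD hε hK hN
      (s p) (t p) p.1.1 p.1.2 (s p') (t p') p'.1.1 p'.1.2 (z p) (z p') rfl rfl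
      (hup p) (hup p') l hl hlr hd
    rw [Subtype.dist_eq, Prod.dist_eq, max_le_iff, Real.dist_eq, Real.dist_eq]
    exact ⟨e1, e2⟩
  set C₂ := C₁ + 4 * κ / r with hC2
  have hC20 : 0 < C₂ := by positivity
  have hanti : AntilipschitzWith ⟨C₂, hC20.le⟩ z := by
    apply AntilipschitzWith.of_le_mul_dist
    intro p' p
    change dist p' p ≤ C₂ * dist (z p') (z p)
    rcases lt_or_ge (r / 2) (dist (z p') (z p)) with hbig | hsmall
    · have h1 : dist p' p ≤ 2 * κ := by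
        rw [Subtype.dist_eq]
        have := dist_triangle_right p'.1 p.1 0
        have h2 := p'.2
        have h3 := p.2
        rw [mem_closedBall] at h2 h3
        linarith
      have h4 : 2 * κ ≤ 4 * κ / r * dist (z p') (z p) := by
        have : 2 * κ = 4 * κ / r * (r / 2) := by field_simp; norm_num
        rw [this]
        exact mul_le_mul_of_nonneg_left hbig.le (by positivity)
      have h5 : 0 ≤ C₁ * dist (z p') (z p) := by positivity
      calc dist p' p ≤ 4 * κ / r * dist (z p') (z p) := h1.trans h4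
        _ ≤ C₁ * dist (z p') (z p) + 4 * κ / r * dist (z p') (z p) := by linarith
        _ = C₂ * dist (z p') (z p) := by rw [hC2]; ring
    · rcases (dist_nonneg (x := z p') (y := z p)).eq_or_lt with h0 | hpos
      · rw [← h0, mul_zero]
        by_contra hlt
        push Not at hlt
        have h6 := hlip p p' (min (r / 2) (dist p' p / (2 * C₁))) (by positivity)
          (by have := min_le_left (r / 2) (dist p' p / (2 * C₁)); linarith)
          (by rw [← h0]; positivity)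
        have h7 : C₁ * min (r / 2) (dist p' p / (2 * C₁)) ≤ C₁ * (dist p' p / (2 * C₁)) :=
          mul_le_mul_of_nonneg_left (min_le_right _ _) hC10.le
        have h8 : C₁ * (dist p' p / (2 * C₁)) = dist p' p / 2 := by field_simp
        linarith
      · have h9 := hlip p p' (dist (z p') (z p)) hpos (by linarith) le_rfl
        have h10 : 0 ≤ 4 * κ / r * dist (z p') (z p) := by positivity
        calc dist p' p ≤ C₁ * dist (z p') (z p) := h9
          _ ≤ C₁ * dist (z p') (z p) + 4 * κ / r * dist (z p') (z p) := by linarith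
          _ = C₂ * dist (z p') (z p) := by rw [hC2]; ring
  -- measure theoretic contradiction
  have hm := hanti.le_hausdorffMeasure_image (d := 2) (by norm_num) univ
  have himg : z '' univ ⊆ A := by
    rintro _ ⟨p, -, rfl⟩
    exact hstA p
  have h0 : (μH[2] : Measure (ℝ × ℝ)) (z '' univ) = 0 := by
    apply le_antisymm _ zero_le
    calc (μH[2] : Measure (ℝ × ℝ)) (z '' univ) ≤ (μH[2] : Measure (ℝ × ℝ)) A := measure_mono himg
      _ = 0 := by rw [hausdorffMeasure_prod_real, hA]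
  rw [h0, mul_zero] at hm
  have h1 : (μH[2] : Measure (ℝ × ℝ)) (Subtype.val '' (univ : Set (closedBall (0 : ℝ × ℝ) κ))) =
      (μH[2] : Measure (closedBall (0 : ℝ × ℝ) κ)) univ :=
    isometry_subtype_coe.hausdorffMeasure_image (Or.inl (by norm_num)) _
  rw [image_univ, Subtype.range_coe, hausdorffMeasure_prod_real] at h1
  have h2 : 0 < volume (closedBall (0 : ℝ × ℝ) κ) := measure_closedBall_pos _ _ hκ0
  rw [h1] at h2
  exact absurd (le_antisymm hm zero_le) h2.ne'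

/-! ### One-dimensional arguments -/

/-- A continuous function on the line which is locally midpoint convex at every point of `(0, 1)`
satisfies the midpoint inequality on `[0, 1]`. -/
lemma oneD (g : ℝ → ℝ) (hg : Continuous g)
    (h : ∀ t ∈ Ioo (0:ℝ) 1, ∃ η₀ > 0, ∀ η, 0 < η → η < η₀ → 2 * g t ≤ g (t - η) + g (t + η)) :
    2 * g (1 / 2) ≤ g 0 + g 1 := by
  by_contra hcon
  push Not at hcon
  have hkc : Continuous (fun t => g t - (1 - t) * g 0 - t * g 1) := by fun_prop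
  obtain ⟨t₁, ht₁, hmax⟩ := (isCompact_Icc (a := (0:ℝ)) (b := 1)).exists_isMaxOn
    ⟨0, by norm_num, by norm_num⟩ hkc.continuousOn
  have hmax' : ∀ t ∈ Icc (0:ℝ) 1, g t - (1 - t) * g 0 - t * g 1 ≤
      g t₁ - (1 - t₁) * g 0 - t₁ * g 1 := fun t ht => hmax ht
  set M := g t₁ - (1 - t₁) * g 0 - t₁ * g 1 with hM
  have hMpos : 0 < M := by
    have := hmax' (1 / 2) ⟨by norm_num, by norm_num⟩
    linarith
  have hS : IsCompact (Icc (0:ℝ) 1 ∩ {t | g t - (1 - t) * g 0 - t * g 1 = M}) :=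
    isCompact_Icc.inter_right (isClosed_eq hkc continuous_const)
  obtain ⟨t₀, ⟨ht₀, ht₀M⟩, hleast⟩ := hS.exists_isLeast ⟨t₁, ht₁, rfl⟩
  have ht₀M' : g t₀ - (1 - t₀) * g 0 - t₀ * g 1 = M := ht₀M
  have h0 : 0 < t₀ := by
    rcases ht₀.1.eq_or_lt with h | h
    · rw [← h] at ht₀M'
      linarith
    · exact h
  have h1 : t₀ < 1 := by
    rcases ht₀.2.eq_or_lt with h | h
    · rw [h] at ht₀M'
      linarith
    · exact h
  obtain ⟨η₀, hη0, hη⟩ := h t₀ ⟨h0, h1⟩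
  obtain ⟨e, he0, he⟩ : ∃ e, 0 < e ∧ e < min η₀ (min t₀ (1 - t₀)) :=
    exists_between (lt_min hη0 (lt_min h0 (by linarith)))
  rw [lt_min_iff, lt_min_iff] at he
  have k1 := hη e he0 he.1
  have k2 := hmax' (t₀ + e) ⟨by linarith, by linarith [he.2.2]⟩
  have k3 := hmax' (t₀ - e) ⟨by linarith [he.2.1], by linarith⟩
  have k4 : g (t₀ - e) - (1 - (t₀ - e)) * g 0 - (t₀ - e) * g 1 ≠ M := by
    intro h4
    have := hleast ⟨⟨by linarith [he.2.1], by linarith⟩, h4⟩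
    linarith
  have k5 := lt_of_le_of_ne k3 k4
  linarith

/-- Midpoint convexity near a point outside of `A`. -/
lemma local_mid (A : Set Plane) (f : Plane → ℝ) (hloc : LocallyConvexOn f Aᶜ) (q : Plane)
    (hq : q ∉ A) (w : Plane) :
    ∃ η₀ > 0, ∀ η : ℝ, 0 < η → η < η₀ → 2 * f q ≤ f (q - η • w) + f (q + η • w) := by
  obtain ⟨V, hVo, -, hqV, -, hVc⟩ := hloc q hq
  have hc : Continuous (fun η : ℝ => q + η • w) := by fun_prop
  have h1 : ∀ᶠ η in nhds (0:ℝ), q + η • w ∈ V := by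
    apply hc.continuousAt.eventually
    apply hVo.mem_nhds
    simpa using hqV
  obtain ⟨e, he, hball⟩ := Metric.eventually_nhds_iff.mp h1
  refine ⟨e, he, fun η hη hηe => ?_⟩
  have m1 : q + η • w ∈ V := hball (by rw [Real.dist_eq, sub_zero, abs_of_pos hη]; exact hηe)
  have m2 : q - η • w ∈ V := by
    have := hball (y := -η) (by rw [Real.dist_eq, sub_zero, abs_neg, abs_of_pos hη]; exact hηe)
    rwa [neg_smul, ← sub_eq_add_neg] at this
  have h2 := hVc.2 m2 m1 (show (0:ℝ) ≤ 1 / 2 by norm_num) (show (0:ℝ) ≤ 1 / 2 by norm_num)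
    (by norm_num)
  have h3 : (1 / 2 : ℝ) • (q - η • w) + (1 / 2 : ℝ) • (q + η • w) = q := by module
  rw [h3, smul_eq_mul, smul_eq_mul] at h2
  linarith

/-- Midpoint convexity along segments avoiding `A`. -/
lemma seg_mid (A : Set Plane) (f : Plane → ℝ) (hf : Continuous f) (hloc : LocallyConvexOn f Aᶜ)
    (x y : Plane) (h : segment ℝ x y ∩ A = ∅) : 2 * f ((1 / 2 : ℝ) • (x + y)) ≤ f x + f y := by
  have h1 := oneD (fun t => f (x + t • (y - x))) (by fun_prop) (by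
    intro t ht
    have hmem : x + t • (y - x) ∈ segment ℝ x y := by
      rw [segment_eq_image']
      exact ⟨t, ⟨ht.1.le, ht.2.le⟩, rfl⟩
    have hA : x + t • (y - x) ∉ A := by
      intro h'
      have : x + t • (y - x) ∈ segment ℝ x y ∩ A := ⟨hmem, h'⟩
      rw [h] at this
      exact this
    obtain ⟨η₀, h0, h2⟩ := local_mid A f hloc _ hA (y - x)
    refine ⟨η₀, h0, fun η hη hη' => ?_⟩
    have h3 := h2 η hη hη'
    have e1 : x + t • (y - x) - η • (y - x) = x + (t - η) • (y - x) := by module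
    have e2 : x + t • (y - x) + η • (y - x) = x + (t + η) • (y - x) := by module
    rw [e1, e2] at h3
    exact h3)
  have e1 : x + (1 / 2 : ℝ) • (y - x) = (1 / 2 : ℝ) • (x + y) := by module
  have e2 : x + (0 : ℝ) • (y - x) = x := by module
  have e3 : x + (1 : ℝ) • (y - x) = y := by module
  simp only [e1, e2, e3] at h1
  exact h1

/-- Midpoint convexity along thin directions. -/
lemma thin_mid (A : Set Plane) (f : Plane → ℝ) (hf : Continuous f) (hloc : LocallyConvexOn f Aᶜ)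
    (v : Plane) (hv : IntervallyThin A v) (x y : Plane) (hxy : ∃ t : ℝ, x - y = t • v) :
    2 * f ((1 / 2 : ℝ) • (x + y)) ≤ f x + f y := by
  by_contra hcon
  push Not at hcon
  have hc : Continuous (fun p : Plane × Plane =>
      f p.1 + f p.2 - 2 * f ((1 / 2 : ℝ) • (p.1 + p.2))) := by fun_prop
  have hev : ∀ᶠ p in nhds (x, y), f p.1 + f p.2 - 2 * f ((1 / 2 : ℝ) • (p.1 + p.2)) < 0 :=
    hc.continuousAt.eventually (gt_mem_nhds (by simp only; linarith))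
  obtain ⟨e, he, hball⟩ := Metric.eventually_nhds_iff.mp hev
  obtain ⟨x', hx', y', hy', hseg⟩ := hv x y hxy e he
  have h1 := seg_mid A f hf hloc x' y' hseg
  have h2 := hball (y := (x', y')) (by
    rw [Prod.dist_eq]
    exact max_lt hx' hy')
  simp only at h2
  linarith

/-- Closed null sets which are intervally thin in two independent directions are c-removable. -/
theorem removable (A : Set Plane) (hA : volume A = 0) (u v : Plane)
    (huv : LinearIndependent ℝ ![u, v]) (hu : IntervallyThin A u) (hv : IntervallyThin A v) :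
    CRemovable A := by
  intro f hf hloc
  -- coordinates
  set L₀ : (ℝ × ℝ) →ₗ[ℝ] Plane := (LinearMap.toSpanSingleton ℝ Plane u).coprod
    (LinearMap.toSpanSingleton ℝ Plane v) with hL₀
  have hL₀a : ∀ z : ℝ × ℝ, L₀ z = z.1 • u + z.2 • v := by
    intro z
    simp [hL₀, LinearMap.coprod_apply, LinearMap.toSpanSingleton_apply]
  have hinj : Function.Injective L₀ := by
    rw [← LinearMap.ker_eq_bot, LinearMap.ker_eq_bot']
    intro z hz
    rw [hL₀a] at hz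
    rw [LinearIndependent.pair_iff] at huv
    obtain ⟨h1, h2⟩ := huv z.1 z.2 hz
    exact Prod.ext h1 h2
  set L : (ℝ × ℝ) ≃L[ℝ] Plane := (LinearMap.linearEquivOfInjective L₀ hinj (by simp)).toContinuousLinearEquiv
    with hL
  have hLa : ∀ z : ℝ × ℝ, L z = z.1 • u + z.2 • v := by
    intro z
    rw [← hL₀a]
    rfl
  have hnull : volume (L ⁻¹' A) = 0 := by
    have h1 : (volume.map (L.toHomeomorph.toMeasurableEquiv)) A = volume (L ⁻¹' A) := by
      rw [MeasurableEquiv.map_apply]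
      rfl
    have : (volume.map L).IsAddHaarMeasure := ContinuousLinearEquiv.isAddHaarMeasure_map L volume
    have h2 : (volume.map L) ≪ (volume : Measure Plane) :=
      Measure.absolutelyContinuous_isAddHaarMeasure _ _
    have h3 := h2 hA
    rw [← h1]
    exact h3
  have hF := main_lemma (fun z => f (L z)) (by fun_prop) (L ⁻¹' A) hnull
    (by
      intro z τ
      have h1 := thin_mid A f hf hloc u hu (L (z.1 - τ, z.2)) (L (z.1 + τ, z.2))
        ⟨-2 * τ, by rw [hLa, hLa]; module⟩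
      have h2 : (1 / 2 : ℝ) • (L (z.1 - τ, z.2) + L (z.1 + τ, z.2)) = L z := by
        rw [hLa, hLa, hLa]; module
      rw [h2] at h1
      exact h1)
    (by
      intro z τ
      have h1 := thin_mid A f hf hloc v hv (L (z.1, z.2 - τ)) (L (z.1, z.2 + τ))
        ⟨-2 * τ, by rw [hLa, hLa]; module⟩
      have h2 : (1 / 2 : ℝ) • (L (z.1, z.2 - τ) + L (z.1, z.2 + τ)) = L z := by
        rw [hLa, hLa, hLa]; module
      rw [h2] at h1
      exact h1)
    (by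
      intro z hz w₁ w₂
      obtain ⟨η₀, h0, h1⟩ := local_mid A f hloc (L z) hz (w₁ • u + w₂ • v)
      refine ⟨η₀, h0, fun η hη hη' => ?_⟩
      have h2 := h1 η hη hη'
      have e1 : L z - η • (w₁ • u + w₂ • v) = L (z.1 - η * w₁, z.2 - η * w₂) := by
        rw [hLa, hLa]; module
      have e2 : L z + η • (w₁ • u + w₂ • v) = L (z.1 + η * w₁, z.2 + η * w₂) := by
        rw [hLa, hLa]; module
      rw [e1, e2] at h2
      exact h2)
  refine ⟨convex_univ, ?_⟩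
  intro x _ y _ a b ha hb hab
  have h1 := hF.2 (mem_univ (L.symm x)) (mem_univ (L.symm y)) ha hb hab
  simp only [map_add, map_smul, ContinuousLinearEquiv.apply_symm_apply] at h1
  exact h1

/-! ### The Cantor dust -/

lemma volume_cantorSet : volume cantorSet = 0 := by
  have hfin : volume cantorSet ≠ ⊤ := by
    apply ne_top_of_le_ne_top _ (measure_mono cantorSet_subset_unitInterval)
    rw [Real.volume_Icc]
    exact ENNReal.ofReal_ne_top
  have l1 : LipschitzWith (1 / 3) (fun x : ℝ => x / 3) := by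
    apply LipschitzWith.of_dist_le_mul
    intro x y
    rw [Real.dist_eq, Real.dist_eq, ← sub_div, abs_div]
    norm_num
    linarith [abs_nonneg (x - y)]
  have l2 : LipschitzWith (1 / 3) (fun x : ℝ => (2 + x) / 3) := by
    apply LipschitzWith.of_dist_le_mul
    intro x y
    rw [Real.dist_eq, Real.dist_eq, ← sub_div, abs_div]
    norm_num
    linarith [abs_nonneg (x - y)]
  have h1 := l1.hausdorffMeasure_image_le (d := 1) (by norm_num) cantorSet
  have h2 := l2.hausdorffMeasure_image_le (d := 1) (by norm_num) cantorSet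
  rw [hausdorffMeasure_real, ENNReal.rpow_one] at h1 h2
  have h3 : volume cantorSet ≤ ((1 / 3 : NNReal) : ENNReal) * volume cantorSet
      + ((1 / 3 : NNReal) : ENNReal) * volume cantorSet := by
    conv_lhs => rw [cantorSet_eq_union_halves]
    exact (measure_union_le _ _).trans (add_le_add h1 h2)
  lift volume cantorSet to NNReal using hfin with c
  have h4 : c ≤ 1 / 3 * c + 1 / 3 * c := by exact_mod_cast h3
  have h5 : c = 0 := by
    have h6 : (c : ℝ) ≤ 1 / 3 * c + 1 / 3 * c := by exact_mod_cast h4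
    have h7 : (0 : ℝ) ≤ c := c.2
    have h8 : (c : ℝ) = 0 := by linarith
    exact_mod_cast h8
  rw [h5]
  rfl

lemma exists_near_not_mem (c ε : ℝ) (hε : 0 < ε) : ∃ c' : ℝ, |c' - c| < ε ∧ c' ∉ cantorSet := by
  have hd : Dense {x : ℝ | x ∉ cantorSet} := by
    apply Measure.dense_of_ae (μ := volume)
    exact measure_eq_zero_iff_ae_notMem.mp volume_cantorSet
  obtain ⟨c', h1, h2⟩ := Metric.dense_iff.mp hd c ε hε
  exact ⟨c', by rwa [mem_ball, Real.dist_eq] at h1, h2⟩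

lemma volume_cantorDust : volume cantorDust = 0 := by
  have h1 : cantorDust = (WithLp.ofLp : Plane → (Fin 2 → ℝ)) ⁻¹' (Set.pi univ fun _ => cantorSet) := by
    ext x
    simp [cantorDust, Fin.forall_fin_two]
  have hmeas : MeasurableSet (Set.pi univ fun _ : Fin 2 => cantorSet) :=
    MeasurableSet.univ_pi (fun _ => isClosed_cantorSet.measurableSet)
  rw [h1, (PiLp.volume_preserving_ofLp (Fin 2)).measure_preimage hmeas.nullMeasurableSet,
    volume_pi_pi]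
  simp [volume_cantorSet]

lemma isClosed_cantorDust : IsClosed cantorDust := by
  have h0 : Continuous (fun x : Plane => x 0) := by fun_prop
  have h1 : Continuous (fun x : Plane => x 1) := by fun_prop
  exact (isClosed_cantorSet.preimage h0).inter (isClosed_cantorSet.preimage h1)

lemma thin_cantorDust (i j : Fin 2) (hij : i ≠ j) :
    IntervallyThin cantorDust (EuclideanSpace.single i 1) := by
  rintro x y ⟨t, ht⟩ ε hε
  have hxy : x j = y j := by
    have := congrArg (fun z : Plane => z j) ht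
    simp [hij.symm] at this
    linarith
  obtain ⟨c, hc1, hc2⟩ := exists_near_not_mem (x j) ε hε
  have hdist : ∀ z : Plane, z j = x j →
      z + (c - x j) • EuclideanSpace.single j (1:ℝ) ∈ ball z ε := by
    intro z _
    rw [mem_ball, dist_eq_norm, add_sub_cancel_left, norm_smul, EuclideanSpace.norm_single,
      norm_one, mul_one]
    exact hc1
  refine ⟨x + (c - x j) • EuclideanSpace.single j (1:ℝ), hdist x rfl,
    y + (c - x j) • EuclideanSpace.single j (1:ℝ), hdist y hxy.symm, ?_⟩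
  rw [Set.eq_empty_iff_forall_notMem]
  rintro z ⟨hz, hzA⟩
  obtain ⟨a, b, ha, hb, hab, rfl⟩ := hz
  have hcoord : (a • (x + (c - x j) • EuclideanSpace.single j (1:ℝ)) +
      b • (y + (c - x j) • EuclideanSpace.single j (1:ℝ)) : Plane) j = c := by
    simp only [PiLp.add_apply, PiLp.smul_apply, EuclideanSpace.single_apply, if_true, smul_eq_mul,
      mul_one]
    rw [← hxy]
    have : b = 1 - a := by linarith
    rw [this]
    ring
  have hj : ∀ w : Plane, w ∈ cantorDust → w j ∈ cantorSet := by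
    intro w hw
    fin_cases j
    · exact hw.1
    · exact hw.2
  apply hc2
  rw [← hcoord]
  exact hj _ hzA

/-- **Main theorem.** The Cantor dust is c-removable; more generally, every closed Lebesgue-null
subset of the plane which is intervally thin in two linearly independent directions is
c-removable. -/
theorem result :
    CRemovable cantorDust ∧
    ∀ A : Set Plane, IsClosed A → volume A = 0 → ∀ u v : Plane, LinearIndependent ℝ ![u, v] →
      IntervallyThin A u → IntervallyThin A v → CRemovable A := by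
  refine ⟨?_, fun A _ hA u v huv hu hv => removable A hA u v huv hu hv⟩
  apply removable cantorDust volume_cantorDust (EuclideanSpace.single 0 1)
    (EuclideanSpace.single 1 1) _ (thin_cantorDust 0 1 (by decide)) (thin_cantorDust 1 0 (by decide))
  rw [LinearIndependent.pair_iff]
  intro s t h
  have h0 := congrArg (fun z : Plane => z 0) h
  have h1 := congrArg (fun z : Plane => z 1) h
  simp at h0 h1
  exact ⟨h0, h1⟩

end Pool.Agent.Results.MP_95ad2c_an.CantorDust
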